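import Pool.Agent.Helper23.BDF5.Piece

/-!
MP_bd232a_nt, part F5: summation over the dyadic pieces.
-/

open Complex MeasureTheory Set Filter Topology
open scoped ContDiff ComplexConjugate

namespace Pool.Agent.Helper23.BDF5

open Pool.Agent.Helper19.BD Pool.Agent.Helper83.BDF

lemma rpow_le_one_add {z θ : ℝ} (hz : 0 ≤ z) (h0 : 0 ≤ θ) (h1 : θ ≤ 1) : z ^ θ ≤ 1 + z := by
  rcases le_total z 1 with h | h
  · exact (Real.rpow_le_one hz h h0).trans (by linarith)
  · calc z ^ θ ≤ z ^ (1 : ℝ) := Real.rpow_le_rpow_of_exponent_le h h1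
      _ = z := Real.rpow_one z
      _ ≤ 1 + z := by linarith

theorem sumBound' (H : HeckeF) (hE : LatticeE) : SumBound H := by
  obtain ⟨C, c, δ, hC, hc, hδ, hδ4, hpiece⟩ := piece_bound H hE
  set θ : ℝ := 1 / 4 - δ / 4 with hθ
  have hθ0 : 0 ≤ θ := by rw [hθ]; linarith
  have hθ1 : θ ≤ 1 := by rw [hθ]; linarith
  set r : ℝ := (2 : ℝ) ^ (-(δ / 2)) with hr
  have hr0 : 0 < r := by positivity
  have hr1 : r < 1 := by
    rw [hr]
    exact Real.rpow_lt_one_of_one_lt_of_neg (by norm_num) (by linarith)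
  set C' : ℝ := C * c ^ (-θ) * (1 - r)⁻¹ with hC'
  have hC'0 : 0 ≤ C' := by
    have : 0 ≤ (1 - r)⁻¹ := inv_nonneg.2 (by linarith)
    positivity
  refine ⟨C', δ / 4, by positivity, fun d hd hd1 => ?_⟩
  have hdθ : d ^ (δ / 4 - 1 / 4) = d ^ (-θ) := by rw [hθ]; congr 1; ring
  by_cases hsum : Summable (hterm H d)
  swap
  · rw [tsum_eq_zero_of_not_summable hsum, norm_zero]
    positivity
  -- the sums over k < N
  have hbd : ∀ (N : ℕ), ‖∑' n : ℕ, hterm H d n *
      ((∑ k ∈ Finset.range N, VV ((n : ℝ) ^ (2 / 3 : ℝ) / 4 ^ k) : ℝ) : ℂ)‖ ≤ C' * d ^ (-θ) := by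
    intro N
    have hVb : ∀ t, |VV t| ≤ 1 := by
      intro t
      unfold VV
      have h1 := Real.smoothTransition.nonneg (2 * t - 1)
      have h2 := Real.smoothTransition.le_one (2 * t - 1)
      have h3 := Real.smoothTransition.nonneg (t / 2 - 1)
      have h4 := Real.smoothTransition.le_one (t / 2 - 1)
      rw [abs_le]
      constructor <;> linarith
    have hsk : ∀ k : ℕ, Summable (fun n : ℕ => hterm H d n * (VV ((n : ℝ) ^ (2 / 3 : ℝ) / 4 ^ k) : ℂ)) := by
      intro k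
      refine Summable.of_norm_bounded hsum.norm fun n => ?_
      rw [norm_mul, Complex.norm_real, Real.norm_eq_abs]
      exact mul_le_of_le_one_right (norm_nonneg _) (hVb _)
    have h1 : ∑' n : ℕ, hterm H d n *
        ((∑ k ∈ Finset.range N, VV ((n : ℝ) ^ (2 / 3 : ℝ) / 4 ^ k) : ℝ) : ℂ) =
        ∑ k ∈ Finset.range N, ∑' n : ℕ, hterm H d n * (VV ((n : ℝ) ^ (2 / 3 : ℝ) / 4 ^ k) : ℂ) := by
      rw [← Summable.tsum_finsetSum fun k _ => hsk k]
      refine tsum_congr fun n => ?_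
      rw [Complex.ofReal_sum, Finset.mul_sum]
    rw [h1]
    refine (norm_sum_le _ _).trans ?_
    have h2 : ∀ k ∈ Finset.range N, ‖∑' n : ℕ, hterm H d n * (VV ((n : ℝ) ^ (2 / 3 : ℝ) / 4 ^ k) : ℂ)‖ ≤
        C * c ^ (-θ) * d ^ (-θ) * r ^ k := by
      intro k _
      have hX : (1 : ℝ) ≤ 2 ^ k := one_le_pow₀ (by norm_num)
      have h3 := hpiece d (2 ^ k) hd hd1 hX
      have h4 : ((2 : ℝ) ^ k) ^ 2 = 4 ^ k := by rw [← pow_mul, mul_comm, pow_mul]; norm_num
      rw [h4] at h3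
      refine h3.trans ?_
      have hz : 0 < c * d * 4 ^ k := by positivity
      have h5 := rpow_le_one_add hz.le hθ0 hθ1
      have h6 : C * ((2 : ℝ) ^ k) ^ (1 / 2 - δ) / (1 + c * d * 4 ^ k) ≤
          C * ((2 : ℝ) ^ k) ^ (1 / 2 - δ) / (c * d * 4 ^ k) ^ θ := by
        gcongr
      refine h6.trans (le_of_eq ?_)
      rw [Real.mul_rpow (by positivity) (by positivity), Real.mul_rpow hc.le hd.le,
        Real.rpow_neg hc.le, Real.rpow_neg hd.le]
      have h7 : ((2 : ℝ) ^ k) ^ (1 / 2 - δ) / ((4 : ℝ) ^ k) ^ θ = r ^ k := by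
        rw [← h4, ← Real.rpow_natCast (((2 : ℝ) ^ k)) 2, ← Real.rpow_mul (by positivity),
          ← Real.rpow_sub (by positivity), hr, ← Real.rpow_natCast, ← Real.rpow_natCast,
          ← Real.rpow_mul (by norm_num), ← Real.rpow_mul (by norm_num)]
        congr 1
        rw [hθ]
        push_cast
        ring
      rw [← h7]
      field_simp
    refine (Finset.sum_le_sum h2).trans ?_
    rw [← Finset.mul_sum]
    have h3 : ∑ k ∈ Finset.range N, r ^ k ≤ (1 - r)⁻¹ := by
      rw [← tsum_geometric_of_lt_one hr0.le hr1]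
      exact (summable_geometric_of_lt_one hr0.le hr1).sum_le_tsum _ (fun k _ => by positivity)
    calc C * c ^ (-θ) * d ^ (-θ) * ∑ k ∈ Finset.range N, r ^ k
        ≤ C * c ^ (-θ) * d ^ (-θ) * (1 - r)⁻¹ := by gcongr
      _ = C' * d ^ (-θ) := by rw [hC']; ring
  -- the limit
  have hlim : Tendsto (fun N : ℕ => ∑' n : ℕ, hterm H d n *
      ((∑ k ∈ Finset.range N, VV ((n : ℝ) ^ (2 / 3 : ℝ) / 4 ^ k) : ℝ) : ℂ)) atTop
      (𝓝 (∑' n : ℕ, hterm H d n)) := by
    refine tendsto_tsum_of_dominated_convergence hsum.norm ?_ ?_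
    · intro n
      rcases Nat.eq_zero_or_pos n with h0 | h0
      · have : hterm H d n = 0 := by
          rw [h0]; unfold hterm; rw [H.a_zero]; simp
        rw [this]
        simp
      · have hu : 1 ≤ (n : ℝ) ^ (2 / 3 : ℝ) :=
          Real.one_le_rpow (by exact_mod_cast h0) (by norm_num)
        have h1 : Tendsto (fun N : ℕ => 2 * (n : ℝ) ^ (2 / 3 : ℝ) / 4 ^ N - 1) atTop (𝓝 (0 - 1)) := by
          refine Tendsto.sub_const ?_ 1
          have h2 : Tendsto (fun N : ℕ => (4 : ℝ) ^ N) atTop atTop :=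
            tendsto_pow_atTop_atTop_of_one_lt (by norm_num)
          exact h2.const_div_atTop _
        have h2 : ∀ᶠ N : ℕ in atTop, 2 * (n : ℝ) ^ (2 / 3 : ℝ) / 4 ^ N - 1 < 0 :=
          h1.eventually (gt_mem_nhds (by norm_num))
        refine tendsto_const_nhds.congr' ?_
        filter_upwards [h2] with N hN
        rw [VV_sum, Real.smoothTransition.one_of_one_le (by linarith),
          Real.smoothTransition.zero_of_nonpos hN.le]
        simp
    · refine Eventually.of_forall fun N n => ?_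
      rw [norm_mul, Complex.norm_real, Real.norm_eq_abs, VV_sum]
      refine mul_le_of_le_one_right (norm_nonneg _) ?_
      have h1 := Real.smoothTransition.nonneg (2 * (n : ℝ) ^ (2 / 3 : ℝ) - 1)
      have h2 := Real.smoothTransition.le_one (2 * (n : ℝ) ^ (2 / 3 : ℝ) - 1)
      have h3 := Real.smoothTransition.nonneg (2 * (n : ℝ) ^ (2 / 3 : ℝ) / 4 ^ N - 1)
      have h4 := Real.smoothTransition.le_one (2 * (n : ℝ) ^ (2 / 3 : ℝ) / 4 ^ N - 1)
      rw [abs_le]
      constructor <;> linarith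
  rw [hdθ]
  exact le_of_tendsto hlim.norm (Eventually.of_forall hbd)

end Pool.Agent.Helper23.BDF5
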