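import Pool.Agent.Helper83.BDF.EStat

/-!
MP_bd232a_nt, part F5: the test function `w(x) phi(x)^{-1} V(phi(x))` and the dyadic partition of unity.
-/

open Complex MeasureTheory Set Filter Topology
open scoped ContDiff

namespace Pool.Agent.Helper23.BDF5

open Pool.Agent.Helper19.BD Pool.Agent.Helper83.BDF

/-- dyadic bump, supported in `[1/2, 4]` -/
noncomputable def VV (t : ℝ) : ℝ := Real.smoothTransition (2 * t - 1) - Real.smoothTransition (t / 2 - 1)

lemma VV_smooth : ContDiff ℝ ∞ VV := by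
  unfold VV
  exact (Real.smoothTransition.contDiff.comp (by fun_prop)).sub
    (Real.smoothTransition.contDiff.comp (by fun_prop))

lemma VV_low {t : ℝ} (h : t ≤ 1 / 2) : VV t = 0 := by
  unfold VV
  rw [Real.smoothTransition.zero_of_nonpos (by linarith),
    Real.smoothTransition.zero_of_nonpos (by linarith), sub_zero]

lemma VV_high {t : ℝ} (h : 4 ≤ t) : VV t = 0 := by
  unfold VV
  rw [Real.smoothTransition.one_of_one_le (by linarith),
    Real.smoothTransition.one_of_one_le (by linarith), sub_self]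

lemma VV_range {t : ℝ} (h : VV t ≠ 0) : 1 / 2 ≤ t ∧ t ≤ 4 := by
  constructor
  · by_contra h'; exact h (VV_low (by linarith))
  · by_contra h'; exact h (VV_high (by linarith))

lemma VV_sum (u : ℝ) (N : ℕ) : ∑ k ∈ Finset.range N, VV (u / 4 ^ k) =
    Real.smoothTransition (2 * u - 1) - Real.smoothTransition (2 * u / 4 ^ N - 1) := by
  induction N with
  | zero => simp
  | succ N ih =>
    rw [Finset.sum_range_succ, ih]
    unfold VV
    have h1 : 2 * (u / 4 ^ N) - 1 = 2 * u / 4 ^ N - 1 := by ring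
    have h2 : u / 4 ^ N / 2 - 1 = 2 * u / 4 ^ (N + 1) - 1 := by
      rw [pow_succ]; field_simp; ring
    rw [h1, h2]
    ring

lemma phi_smul {X : ℝ} (hX : 0 < X) (x : Fin 3 → ℝ) : phi (X⁻¹ • x) = phi x / X ^ 2 := by
  unfold phi
  have h1 : ∏ j, (X⁻¹ • x) j = (X⁻¹) ^ 3 * ∏ j, x j := by
    simp only [Pi.smul_apply, smul_eq_mul, Finset.prod_mul_distrib, Finset.prod_const,
      Finset.card_univ, Fintype.card_fin]
  rw [h1, abs_mul, abs_of_pos (by positivity), Real.mul_rpow (by positivity) (abs_nonneg _),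
    ← Real.rpow_natCast, ← Real.rpow_mul (by positivity)]
  have h2 : ((3 : ℕ) : ℝ) * (2 / 3) = ((2 : ℕ) : ℝ) := by norm_num
  rw [h2, Real.rpow_natCast, inv_pow]
  ring

lemma phi_nonneg (x : Fin 3 → ℝ) : 0 ≤ phi x := by unfold phi; positivity

/-- the test function -/
noncomputable def GG (w : (Fin 3 → ℝ) → ℂ) (x : Fin 3 → ℝ) : ℂ :=
  w x * (((phi x)⁻¹ * VV (phi x) : ℝ) : ℂ)

lemma GG_smul (H : HeckeF) {X : ℝ} (hX : 0 < X) (x : Fin 3 → ℝ) :
    GG H.w (X⁻¹ • x) = H.w x * ((X ^ 2 * ((phi x)⁻¹ * VV (phi x / X ^ 2)) : ℝ) : ℂ) := by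
  unfold GG
  rw [H.w_hom _ _ (inv_pos.2 hX), phi_smul hX, inv_div]
  congr 2
  rw [div_eq_mul_inv]
  ring

/-- the compact set containing the support -/
def QQ (K : ℝ) : Set (Fin 3 → ℝ) := {x | ∀ j, 1 / (2 * K) ≤ |x j| ∧ |x j| ≤ 2 * K}

lemma QQ_closed (K : ℝ) : IsClosed (QQ K) := by
  have : QQ K = ⋂ j, {x : Fin 3 → ℝ | 1 / (2 * K) ≤ |x j| ∧ |x j| ≤ 2 * K} := by
    ext x; simp [QQ]
  rw [this]
  refine isClosed_iInter fun j => ?_
  exact (isClosed_le continuous_const (continuous_abs.comp (continuous_apply j))).inter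
    (isClosed_le (continuous_abs.comp (continuous_apply j)) continuous_const)

lemma QQ_compact (K : ℝ) : IsCompact (QQ K) := by
  refine Metric.isCompact_of_isClosed_isBounded (QQ_closed K) ?_
  refine (Metric.isBounded_closedBall (x := (0 : Fin 3 → ℝ)) (r := |2 * K|)).subset ?_
  intro x hx
  rw [mem_closedBall_zero_iff, pi_norm_le_iff_of_nonneg (abs_nonneg _)]
  intro j
  rw [Real.norm_eq_abs]
  exact (hx j).2.trans (le_abs_self _)

lemma phi_range {x : Fin 3 → ℝ} (h1 : 1 / 2 ≤ phi x) (h2 : phi x ≤ 4) :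
    1 / 4 ≤ |∏ j, x j| ∧ |∏ j, x j| ≤ 8 := by
  unfold phi at h1 h2
  set P := |∏ j, x j| with hP
  have hP0 : 0 ≤ P := abs_nonneg _
  constructor
  · by_contra hcon
    push Not at hcon
    have h3 : P ^ (2 / 3 : ℝ) ≤ (1 / 4 : ℝ) ^ (2 / 3 : ℝ) :=
      Real.rpow_le_rpow hP0 hcon.le (by norm_num)
    have h4 : (1 / 4 : ℝ) ^ (2 / 3 : ℝ) < 1 / 2 := by
      have h5 : ((1 / 4 : ℝ) ^ (2 / 3 : ℝ)) ^ 3 = (1 / 4) ^ 2 := by
        rw [← Real.rpow_natCast, ← Real.rpow_mul (by norm_num), ← Real.rpow_natCast]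
        norm_num
      by_contra h6
      push Not at h6
      have h7 : (1 / 2 : ℝ) ^ 3 ≤ ((1 / 4 : ℝ) ^ (2 / 3 : ℝ)) ^ 3 := by gcongr
      rw [h5] at h7
      norm_num at h7
    linarith
  · by_contra hcon
    push Not at hcon
    have h3 : (8 : ℝ) ^ (2 / 3 : ℝ) < P ^ (2 / 3 : ℝ) :=
      Real.rpow_lt_rpow (by norm_num) hcon (by norm_num)
    have h4 : (8 : ℝ) ^ (2 / 3 : ℝ) = 4 := by
      have : (8 : ℝ) = 2 ^ (3 : ℝ) := by norm_num
      rw [this, ← Real.rpow_mul (by norm_num)]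
      norm_num
    linarith

lemma GG_support (H : HeckeF) {K : ℝ} (hK : 1 < K) (hs : ∀ x, H.w x ≠ 0 → ∀ i j, |x i| ≤ K * |x j|)
    {x : Fin 3 → ℝ} (hx : GG H.w x ≠ 0) : x ∈ QQ K := by
  have hw : H.w x ≠ 0 := fun h => hx (by rw [GG, h, zero_mul])
  have hV : VV (phi x) ≠ 0 := fun h => hx (by rw [GG, h]; simp)
  obtain ⟨h1, h2⟩ := VV_range hV
  obtain ⟨h3, h4⟩ := phi_range h1 h2
  have hc := hs x hw
  have hprod : |∏ j, x j| = |x 0| * |x 1| * |x 2| := by
    rw [Fin.prod_univ_three, abs_mul, abs_mul]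
  rw [hprod] at h3 h4
  intro j
  have a0 := hc j 0
  have a1 := hc j 1
  have a2 := hc j 2
  have b0 := hc 0 j
  have b1 := hc 1 j
  have b2 := hc 2 j
  have hj := abs_nonneg (x j)
  have p0 := abs_nonneg (x 0)
  have p1 := abs_nonneg (x 1)
  have p2 := abs_nonneg (x 2)
  have hK0 : 0 < K := by linarith
  constructor
  · -- lower bound
    have h5 : |x 0| * |x 1| * |x 2| ≤ (K * |x j|) * (K * |x j|) * (K * |x j|) := by gcongr
    have h6 : (1 / 4 : ℝ) ≤ (K * |x j|) ^ 3 := by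
      calc (1 / 4 : ℝ) ≤ |x 0| * |x 1| * |x 2| := h3
        _ ≤ _ := h5
        _ = _ := by ring
    have h7 : 1 / 2 ≤ K * |x j| := by
      by_contra hcon
      push Not at hcon
      have : (K * |x j|) ^ 3 ≤ (1 / 2) ^ 3 := by gcongr
      linarith
    rw [div_le_iff₀ (by positivity)]
    linarith
  · have h5 : |x j| * |x j| * |x j| ≤ (K * |x 0|) * (K * |x 1|) * (K * |x 2|) := by gcongr
    have h6 : |x j| ^ 3 ≤ (2 * K) ^ 3 := by
      calc |x j| ^ 3 = |x j| * |x j| * |x j| := by ring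
        _ ≤ _ := h5
        _ = K ^ 3 * (|x 0| * |x 1| * |x 2|) := by ring
        _ ≤ K ^ 3 * 8 := by gcongr
        _ = _ := by ring
    exact le_of_pow_le_pow_left₀ (by norm_num) (by positivity) h6

lemma QQ_sub {K : ℝ} (hK : 1 < K) : QQ K ⊆ {x | ∀ j, x j ≠ 0} := by
  intro x hx j h
  have h1 := (hx j).1
  rw [h, abs_zero] at h1
  have : 0 < 1 / (2 * K) := by positivity
  linarith

lemma GG_tsupport_subset (H : HeckeF) {K : ℝ} (hK : 1 < K)
    (hs : ∀ x, H.w x ≠ 0 → ∀ i j, |x i| ≤ K * |x j|) : tsupport (GG H.w) ⊆ QQ K :=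
  closure_minimal (fun _ hx => GG_support H hK hs hx) (QQ_closed K)

theorem GG_tsupport (H : HeckeF) : tsupport (GG H.w) ⊆ {x | ∀ j, x j ≠ 0} := by
  obtain ⟨K, hK, hs⟩ := H.w_supp
  exact (GG_tsupport_subset H hK hs).trans (QQ_sub hK)

theorem GG_compact (H : HeckeF) : HasCompactSupport (GG H.w) := by
  obtain ⟨K, hK, hs⟩ := H.w_supp
  exact (QQ_compact K).of_isClosed_subset (isClosed_tsupport _) (GG_tsupport_subset H hK hs)

lemma isOpen_U : IsOpen {x : Fin 3 → ℝ | ∀ j, x j ≠ 0} := by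
  have : {x : Fin 3 → ℝ | ∀ j, x j ≠ 0} = ⋂ j, {x : Fin 3 → ℝ | x j ≠ 0} := by ext x; simp
  rw [this]
  exact isOpen_iInter_of_finite fun j => isOpen_ne_fun (continuous_apply j) continuous_const

theorem GG_contDiff (H : HeckeF) : ContDiff ℝ ∞ (GG H.w) := by
  rw [contDiff_iff_contDiffAt]
  intro x
  by_cases hx : x ∈ tsupport (GG H.w)
  · have hU := GG_tsupport H hx
    have h1 : ContDiffAt ℝ ∞ H.w x := (H.w_smooth x hU).contDiffAt (isOpen_U.mem_nhds hU)
    have hp : ∏ j, x j ≠ 0 := Finset.prod_ne_zero_iff.2 fun j _ => hU j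
    have h2 : ContDiffAt ℝ ∞ phi x := by
      unfold phi
      refine ContDiffAt.rpow_const_of_ne ?_ (abs_ne_zero.2 hp)
      refine (contDiffAt_abs hp).comp x ?_
      exact contDiffAt_prod fun i _ => (contDiff_apply ℝ ℝ i).contDiffAt
    have hphi : phi x ≠ 0 := by
      unfold phi
      exact (Real.rpow_pos_of_pos (abs_pos.2 hp) _).ne'
    unfold GG
    refine h1.mul ?_
    refine (Complex.ofRealCLM.contDiff.contDiffAt).comp x ?_
    exact (h2.inv hphi).mul (VV_smooth.contDiffAt.comp x h2)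
  · have hev : GG H.w =ᶠ[𝓝 x] fun _ => 0 := notMem_tsupport_iff_eventuallyEq.1 hx
    exact contDiffAt_const.congr_of_eventuallyEq hev

end Pool.Agent.Helper23.BDF5
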