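import Mathlib

/-!
MP_bd232a_nt, part F5: the window `exp (-μ t)` on `[1/2, 4]` as a Fourier integral, uniformly in `μ`.
-/

open Complex MeasureTheory Set Filter Topology FourierTransform
open scoped ContDiff

namespace Pool.Agent.Helper23.BDF5

/-- the cutoff function: `1` on `[1/2, 4]`, `0` outside `[1/4, 8]` -/
noncomputable def cut (t : ℝ) : ℝ := Real.smoothTransition (4 * t - 1) * Real.smoothTransition (2 - t / 4)

lemma cut_smooth : ContDiff ℝ ∞ cut := by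
  unfold cut
  exact (Real.smoothTransition.contDiff.comp (by fun_prop)).mul
    (Real.smoothTransition.contDiff.comp (by fun_prop))

lemma cut_eq_one {t : ℝ} (h1 : 1 / 2 ≤ t) (h2 : t ≤ 4) : cut t = 1 := by
  unfold cut
  rw [Real.smoothTransition.one_of_one_le (by linarith),
    Real.smoothTransition.one_of_one_le (by linarith), mul_one]

lemma cut_eq_zero {t : ℝ} (h : t ∉ Icc (1 / 4 : ℝ) 8) : cut t = 0 := by
  unfold cut
  rw [mem_Icc, not_and_or, not_le, not_le] at h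
  rcases h with h | h
  · rw [Real.smoothTransition.zero_of_nonpos (by linarith), zero_mul]
  · rw [Real.smoothTransition.zero_of_nonpos (x := 2 - t / 4) (by linarith), mul_zero]

/-- smooth functions supported in `[1/4, 8]` -/
structure Win (ψ : ℝ → ℝ) : Prop where
  smooth : ContDiff ℝ ∞ ψ
  zero : ∀ t, t ∉ Icc (1 / 4 : ℝ) 8 → ψ t = 0

lemma Win.cut : Win cut := ⟨cut_smooth, fun _ h => cut_eq_zero h⟩

lemma Win.deriv {ψ : ℝ → ℝ} (h : Win ψ) : Win (deriv ψ) := by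
  refine ⟨(contDiff_infty_iff_deriv.1 h.smooth).2, fun t ht => ?_⟩
  have hev : ψ =ᶠ[𝓝 t] fun _ => 0 := by
    have : (Icc (1 / 4 : ℝ) 8)ᶜ ∈ 𝓝 t := isClosed_Icc.isOpen_compl.mem_nhds ht
    filter_upwards [this] with s hs
    exact h.zero s hs
  rw [hev.deriv_eq]
  simp

lemma Win.lin {ψ χ : ℝ → ℝ} (h : Win ψ) (h' : Win χ) (c : ℝ) : Win (fun t => ψ t - c * χ t) :=
  ⟨h.smooth.sub (contDiff_const.mul h'.smooth), fun t ht => by rw [h.zero t ht, h'.zero t ht]; ring⟩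

lemma Win.bdd {ψ : ℝ → ℝ} (h : Win ψ) : ∃ M : ℝ, 0 ≤ M ∧ ∀ t, |ψ t| ≤ M := by
  obtain ⟨M, hM⟩ := isCompact_Icc.exists_bound_of_continuousOn
    (s := Icc (1 / 4 : ℝ) 8) h.smooth.continuous.continuousOn
  refine ⟨max M 0, le_max_right _ _, fun t => ?_⟩
  by_cases ht : t ∈ Icc (1 / 4 : ℝ) 8
  · exact (hM t ht).trans (le_max_left _ _)
  · rw [h.zero t ht, abs_zero]
    exact le_max_right _ _

/-- the damped function -/
noncomputable def dm (μ : ℝ) (ψ : ℝ → ℝ) (t : ℝ) : ℂ := ((ψ t * Real.exp (-(μ * t)) : ℝ) : ℂ)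

lemma dm_contDiff (μ : ℝ) {ψ : ℝ → ℝ} (h : Win ψ) : ContDiff ℝ ∞ (dm μ ψ) := by
  unfold dm
  have h1 : ContDiff ℝ ∞ (fun t => ψ t * Real.exp (-(μ * t))) :=
    h.smooth.mul (Real.contDiff_exp.comp (by fun_prop))
  exact Complex.ofRealCLM.contDiff.comp h1

lemma dm_zero (μ : ℝ) {ψ : ℝ → ℝ} (h : Win ψ) {t : ℝ} (ht : t ∉ Icc (1 / 4 : ℝ) 8) : dm μ ψ t = 0 := by
  unfold dm
  rw [h.zero t ht]
  simp

lemma dm_integrable (μ : ℝ) {ψ : ℝ → ℝ} (h : Win ψ) : Integrable (dm μ ψ) := by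
  refine (dm_contDiff μ h).continuous.integrable_of_hasCompactSupport ?_
  exact HasCompactSupport.intro isCompact_Icc fun t ht => dm_zero μ h ht

lemma dm_deriv (μ : ℝ) {ψ : ℝ → ℝ} (h : Win ψ) :
    deriv (dm μ ψ) = dm μ (fun t => deriv ψ t - μ * ψ t) := by
  ext t
  have h1 : HasDerivAt ψ (deriv ψ t) t :=
    (h.smooth.differentiable (by simp)).differentiableAt.hasDerivAt
  have h2 : HasDerivAt (fun t => Real.exp (-(μ * t))) (Real.exp (-(μ * t)) * -(μ * 1)) t :=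
    ((hasDerivAt_id t).const_mul μ).neg.exp
  have h3 := (h1.mul h2).ofReal_comp
  have h4 : deriv (dm μ ψ) t = _ := h3.deriv
  rw [h4]
  unfold dm
  push_cast
  ring

lemma dm_norm_le {μ : ℝ} (hμ : 0 ≤ μ) {ψ : ℝ → ℝ} (h : Win ψ) {M : ℝ} (hM : ∀ t, |ψ t| ≤ M) (ξ : ℝ) :
    ‖𝓕 (dm μ ψ) ξ‖ ≤ 8 * (M * Real.exp (-(μ / 4))) := by
  have hM0 : 0 ≤ M := (abs_nonneg _).trans (hM 0)
  have h1 : ‖𝓕 (dm μ ψ) ξ‖ ≤ ∫ t, ‖dm μ ψ t‖ := by
    rw [Real.fourier_real_eq]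
    refine (norm_integral_le_integral_norm _).trans (le_of_eq ?_)
    refine integral_congr_ae (Eventually.of_forall fun t => ?_)
    simp only [Circle.norm_smul]
  refine h1.trans ?_
  have h2 : ∫ t, ‖dm μ ψ t‖ = ∫ t in Icc (1 / 4 : ℝ) 8, ‖dm μ ψ t‖ := by
    rw [setIntegral_eq_integral_of_forall_compl_eq_zero]
    intro t ht
    rw [dm_zero μ h ht, norm_zero]
  rw [h2]
  have h3 : ∫ t in Icc (1 / 4 : ℝ) 8, ‖dm μ ψ t‖ ≤
      ∫ t in Icc (1 / 4 : ℝ) 8, M * Real.exp (-(μ / 4)) := by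
    refine setIntegral_mono_on ?_ ?_ measurableSet_Icc ?_
    · exact (dm_integrable μ h).norm.integrableOn
    · exact integrableOn_const (by simp) 
    · intro t ht
      unfold dm
      rw [Complex.norm_real, Real.norm_eq_abs, abs_mul, abs_of_pos (Real.exp_pos _)]
      refine mul_le_mul (hM t) (Real.exp_le_exp.2 ?_) (Real.exp_pos _).le hM0
      have := mul_le_mul_of_nonneg_left ht.1 hμ
      linarith
  refine h3.trans ?_
  rw [setIntegral_const, smul_eq_mul]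
  have h4 : volume.real (Icc (1 / 4 : ℝ) 8) ≤ 8 := by
    rw [Real.volume_real_Icc]
    exact max_le (by norm_num) (by norm_num)
  exact mul_le_mul_of_nonneg_right h4 (by positivity)

lemma pow_exp_bound {μ : ℝ} (hμ : 0 ≤ μ) : (1 + μ) ^ 2 * Real.exp (-(μ / 4)) ≤ 1000 / (1 + μ) := by
  have h1 : ((1 + μ) / 4) ^ 3 / (Nat.factorial 3 : ℝ) ≤ Real.exp ((1 + μ) / 4) :=
    Real.pow_div_factorial_le_exp _ (by positivity) 3
  have h2 : Real.exp ((1 + μ) / 4) = Real.exp (1 / 4) * Real.exp (μ / 4) := by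
    rw [← Real.exp_add]; ring_nf
  have h3 : Real.exp (1 / 4) ≤ 2 := by
    have h5 : Real.exp (1 / 4) ≤ Real.exp (1 / 2) := Real.exp_le_exp.2 (by norm_num)
    have h6 : Real.exp (1 / 2) ^ 2 = Real.exp 1 := by
      rw [← Real.exp_nat_mul]; norm_num
    have h7 := Real.exp_one_lt_d9
    nlinarith [Real.exp_pos (1 / 2 : ℝ)]
  have h4 : (Nat.factorial 3 : ℝ) = 6 := by norm_num [Nat.factorial]
  rw [h4] at h1
  have hE : 0 < Real.exp (μ / 4) := Real.exp_pos _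
  rw [Real.exp_neg, le_div_iff₀ (by positivity)]
  have h8 : (1 + μ) ^ 3 ≤ 768 * Real.exp (μ / 4) := by
    have : ((1 + μ) / 4) ^ 3 / 6 = (1 + μ) ^ 3 / 384 := by ring
    rw [this, h2] at h1
    have h9 := mul_le_mul_of_nonneg_right h3 hE.le
    linarith
  calc (1 + μ) ^ 2 * (Real.exp (μ / 4))⁻¹ * (1 + μ) = (1 + μ) ^ 3 * (Real.exp (μ / 4))⁻¹ := by ring
    _ ≤ (768 * Real.exp (μ / 4)) * (Real.exp (μ / 4))⁻¹ := by gcongr
    _ = 768 := by field_simp
    _ ≤ 1000 := by norm_num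

theorem fourier_window : ∃ C : ℝ, 0 ≤ C ∧ ∀ μ : ℝ, 0 ≤ μ → ∃ gh : ℝ → ℂ, Continuous gh ∧
    (∀ ξ, ‖gh ξ‖ ≤ C / (1 + μ) * (1 + ‖ξ‖) ^ (-2 : ℝ)) ∧
    ∀ t : ℝ, 1 / 2 ≤ t → t ≤ 4 →
      ((Real.exp (-(μ * t)) : ℝ) : ℂ) = ∫ ξ : ℝ, cexp (2 * Real.pi * I * ((ξ * t : ℝ) : ℂ)) * gh ξ := by
  obtain ⟨M0, hM00, hM0⟩ := Win.cut.bdd
  obtain ⟨M1, hM10, hM1⟩ := Win.cut.deriv.bdd
  obtain ⟨M2, hM20, hM2⟩ := Win.cut.deriv.deriv.bdd
  set M : ℝ := M0 + M1 + M2 with hM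
  refine ⟨32000 * M, by positivity, fun μ hμ => ?_⟩
  set g : ℝ → ℂ := dm μ cut with hg
  set c1 : ℝ → ℝ := fun t => deriv cut t - μ * cut t with hc1
  have w1 : Win c1 := Win.cut.deriv.lin Win.cut μ
  set c2 : ℝ → ℝ := fun t => deriv c1 t - μ * c1 t with hc2
  have w2 : Win c2 := w1.deriv.lin w1 μ
  have hd1 : deriv g = dm μ c1 := dm_deriv μ Win.cut
  have hd2 : deriv (dm μ c1) = dm μ c2 := dm_deriv μ w1
  have hc2b : ∀ t, |c2 t| ≤ M * (1 + μ) ^ 2 := by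
    intro t
    have e1 : deriv c1 t = deriv (deriv cut) t - μ * deriv cut t := by
      have a1 : HasDerivAt (deriv cut) (deriv (deriv cut) t) t :=
        (Win.cut.deriv.smooth.differentiable (by simp)).differentiableAt.hasDerivAt
      have a2 : HasDerivAt cut (deriv cut t) t :=
        (Win.cut.smooth.differentiable (by simp)).differentiableAt.hasDerivAt
      exact (a1.sub (a2.const_mul μ)).deriv
    have e2 : c2 t = deriv (deriv cut) t - 2 * μ * deriv cut t + μ ^ 2 * cut t := by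
      simp only [hc2]
      rw [e1]
      simp only [hc1]
      ring
    rw [e2]
    have b0 := hM0 t
    have b1 := hM1 t
    have b2 := hM2 t
    calc |deriv (deriv cut) t - 2 * μ * deriv cut t + μ ^ 2 * cut t|
        ≤ |deriv (deriv cut) t| + 2 * μ * |deriv cut t| + μ ^ 2 * |cut t| := by
          refine (abs_add_le _ _).trans ?_
          refine add_le_add ((abs_sub _ _).trans (add_le_add le_rfl ?_)) ?_
          · rw [abs_mul, abs_of_nonneg (by positivity)]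
          · rw [abs_mul, abs_of_nonneg (by positivity)]
      _ ≤ M + 2 * μ * M + μ ^ 2 * M := by
          have : M0 ≤ M := by linarith
          have : M1 ≤ M := by linarith
          have : M2 ≤ M := by linarith
          gcongr <;> linarith
      _ = M * (1 + μ) ^ 2 := by ring
  have hF1 : ∀ ξ, ‖𝓕 g ξ‖ ≤ 8 * (M * Real.exp (-(μ / 4))) := fun ξ =>
    dm_norm_le hμ Win.cut (fun t => (hM0 t).trans (by linarith)) ξ
  have hF2 : ∀ ξ, (2 * Real.pi * ξ) ^ 2 * ‖𝓕 g ξ‖ ≤ 8 * (M * (1 + μ) ^ 2 * Real.exp (-(μ / 4))) := by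
    intro ξ
    have f1 := Real.fourier_deriv (dm_integrable μ Win.cut)
      ((dm_contDiff μ Win.cut).differentiable (by simp)) (by
        rw [← hg, hd1]; exact dm_integrable μ w1)
    have f2 := Real.fourier_deriv (dm_integrable μ w1)
      ((dm_contDiff μ w1).differentiable (by simp)) (by
        rw [hd2]; exact dm_integrable μ w2)
    have f3 : 𝓕 (dm μ c2) ξ = (2 * Real.pi * I * ξ) • ((2 * Real.pi * I * ξ) • 𝓕 g ξ) := by
      rw [← hd2, congrFun f2 ξ, ← hd1, congrFun f1 ξ]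
    have f4 : ‖𝓕 (dm μ c2) ξ‖ = (2 * Real.pi * ξ) ^ 2 * ‖𝓕 g ξ‖ := by
      rw [f3, norm_smul, norm_smul, ← mul_assoc]
      congr 1
      rw [norm_mul, norm_mul, norm_mul, Complex.norm_I, Complex.norm_real, Complex.norm_real]
      simp only [Complex.norm_ofNat, mul_one, Real.norm_eq_abs]
      rw [abs_of_pos Real.pi_pos, sq, show 2 * Real.pi * |ξ| * (2 * Real.pi * |ξ|) =
        (2 * Real.pi) * (2 * Real.pi) * (|ξ| * |ξ|) by ring, abs_mul_abs_self]
      ring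
    rw [← f4]
    exact dm_norm_le hμ w2 hc2b ξ
  have hcont : Continuous (𝓕 g) := by
    exact VectorFourier.fourierIntegral_continuous Real.continuous_fourierChar
      (by exact continuous_inner) (dm_integrable μ Win.cut)
  have hbound : ∀ ξ, ‖𝓕 g ξ‖ ≤ 32000 * M / (1 + μ) * (1 + ‖ξ‖) ^ (-2 : ℝ) := by
    intro ξ
    have h1 := hF1 ξ
    have h2 := hF2 ξ
    have h3 := pow_exp_bound hμ
    have h4 : Real.exp (-(μ / 4)) ≤ (1 + μ) ^ 2 * Real.exp (-(μ / 4)) :=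
      le_mul_of_one_le_left (Real.exp_pos _).le (one_le_pow₀ (by linarith))
    have h5 : (1 + ‖ξ‖) ^ 2 ≤ 2 * (1 + (2 * Real.pi * ξ) ^ 2) := by
      have hpi := Real.pi_gt_three
      rw [Real.norm_eq_abs]
      have : |ξ| ^ 2 = ξ ^ 2 := sq_abs ξ
      nlinarith [sq_nonneg (|ξ| - 1), mul_nonneg (sq_nonneg ξ) (show (0:ℝ) ≤ (2 * Real.pi) ^ 2 - 1 by nlinarith)]
    have h6 : (1 + ‖ξ‖) ^ 2 * ‖𝓕 g ξ‖ ≤ 32000 * M / (1 + μ) := by
      calc (1 + ‖ξ‖) ^ 2 * ‖𝓕 g ξ‖ ≤ 2 * (1 + (2 * Real.pi * ξ) ^ 2) * ‖𝓕 g ξ‖ := by gcongr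
        _ = 2 * (‖𝓕 g ξ‖ + (2 * Real.pi * ξ) ^ 2 * ‖𝓕 g ξ‖) := by ring
        _ ≤ 2 * (8 * (M * Real.exp (-(μ / 4))) + 8 * (M * (1 + μ) ^ 2 * Real.exp (-(μ / 4)))) := by
            gcongr
        _ ≤ 32 * (M * ((1 + μ) ^ 2 * Real.exp (-(μ / 4)))) := by
            have hM0' : 0 ≤ M := by positivity
            have := mul_le_mul_of_nonneg_left h4 hM0'
            linarith
        _ ≤ 32 * (M * (1000 / (1 + μ))) := by gcongr
        _ = 32000 * M / (1 + μ) := by ring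
    rw [Real.rpow_neg (by positivity), ← div_eq_mul_inv, le_div_iff₀ (by positivity), mul_comm]
    have : (1 + ‖ξ‖) ^ (2 : ℝ) = (1 + ‖ξ‖) ^ 2 := by
      rw [← Real.rpow_natCast]; norm_num
    rw [this]
    exact h6
  refine ⟨𝓕 g, hcont, hbound, fun t ht1 ht2 => ?_⟩
  have hint : Integrable (𝓕 g) := by
    refine Integrable.mono' ((integrable_one_add_norm (E := ℝ) (r := 2) (by simp)).const_mul
      (32000 * M / (1 + μ))) hcont.aestronglyMeasurable (Eventually.of_forall hbound)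
  have hinv := Continuous.fourierInv_fourier_eq (dm_contDiff μ Win.cut).continuous
    (dm_integrable μ Win.cut) hint
  have h1 : g t = ((Real.exp (-(μ * t)) : ℝ) : ℂ) := by
    rw [hg]
    unfold dm
    rw [cut_eq_one ht1 ht2, one_mul]
  have h2 : 𝓕⁻ (𝓕 g) t = g t := congrFun hinv t
  rw [← h1, ← h2, Real.fourierInv_eq']
  refine integral_congr_ae (Eventually.of_forall fun ξ => ?_)
  simp only [smul_eq_mul]
  congr 2
  simp
  ring

end Pool.Agent.Helper23.BDF5
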