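import Pool.Agent.Helper23.BDF5.Cut

/-!
MP_bd232a_nt, part F5: lattice points in boxes, and the coefficient sums as lattice sums.
-/

open Complex MeasureTheory Set Filter Topology
open scoped ContDiff

namespace Pool.Agent.Helper23.BDF5

open Pool.Agent.Helper19.BD Pool.Agent.Helper83.BDF

theorem lattice_box (A : Matrix (Fin 3) (Fin 3) ℝ) (hA : A.det ≠ 0) (R : ℝ) (hR : 0 ≤ R) :
    ∃ C : ℝ, 0 ≤ C ∧ ∀ X : ℝ, 1 ≤ X → ∃ F : Finset (Fin 3 → ℤ), (F.card : ℝ) ≤ C * X ^ 3 ∧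
      ∀ y, (∀ j, |lp A y j| ≤ R * X) → y ∈ F := by
  classical
  set S : ℝ := ∑ i, ∑ j, |A⁻¹ i j| with hS
  have hS0 : 0 ≤ S := by positivity
  refine ⟨(2 * (S * R) + 1) ^ 3, by positivity, fun X hX => ?_⟩
  set m : ℕ := ⌊S * R * X⌋₊ with hm
  have hmX : (m : ℝ) ≤ S * R * X := Nat.floor_le (by positivity)
  refine ⟨Fintype.piFinset (fun _ : Fin 3 => Finset.Icc (-(m : ℤ)) m), ?_, ?_⟩
  · have h1 : (Fintype.piFinset (fun _ : Fin 3 => Finset.Icc (-(m : ℤ)) m)).card = (2 * m + 1) ^ 3 := by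
      rw [Fintype.card_piFinset]
      simp only [Int.card_Icc, Finset.prod_const, Finset.card_univ, Fintype.card_fin]
      congr 1
      omega
    rw [h1]
    push_cast
    calc (2 * (m : ℝ) + 1) ^ 3 ≤ (2 * (S * R * X) + 1) ^ 3 := by gcongr
      _ ≤ ((2 * (S * R) + 1) * X) ^ 3 := by
          gcongr
          nlinarith
      _ = _ := by ring
  · intro y hy
    rw [Fintype.mem_piFinset]
    intro i
    have hunit : IsUnit A.det := isUnit_iff_ne_zero.2 hA
    have h1 : (y i : ℝ) = ∑ j, A⁻¹ i j * lp A y j := by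
      have h2 : A⁻¹.mulVec (lp A y) = fun i => (y i : ℝ) := by
        unfold Helper83.BDF.lp
        rw [Matrix.mulVec_mulVec, Matrix.nonsing_inv_mul A hunit, Matrix.one_mulVec]
      have h3 := congrFun h2 i
      rw [← h3]
      rfl
    have h2 : |(y i : ℝ)| ≤ S * R * X := by
      rw [h1]
      calc |∑ j, A⁻¹ i j * lp A y j| ≤ ∑ j, |A⁻¹ i j * lp A y j| := Finset.abs_sum_le_sum_abs _ _
        _ ≤ ∑ j, |A⁻¹ i j| * (R * X) := by
            refine Finset.sum_le_sum fun j _ => ?_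
            rw [abs_mul]
            exact mul_le_mul_of_nonneg_left (hy j) (abs_nonneg _)
        _ = (∑ j, |A⁻¹ i j|) * (R * X) := by rw [Finset.sum_mul]
        _ ≤ S * (R * X) := by
            refine mul_le_mul_of_nonneg_right ?_ (by positivity)
            exact Finset.single_le_sum (f := fun i => ∑ j, |A⁻¹ i j|) (fun i _ => by positivity)
              (Finset.mem_univ i)
        _ = _ := by ring
    have h3 : (y i).natAbs ≤ m := by
      apply Nat.le_floor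
      rw [Nat.cast_natAbs, Int.cast_abs]
      exact h2
    rw [Finset.mem_Icc]
    omega

/-- natural norms -/
lemma phi_norm (H : HeckeF) (y : Fin 3 → ℤ) {n : ℕ}
    (hn : |∏ j, H.A.mulVec (fun i => (y i : ℝ)) j| = n) : phi (lp H.A y) = (n : ℝ) ^ (2 / 3 : ℝ) := by
  unfold phi Helper83.BDF.lp
  rw [hn]

/-- the coefficient in front of `a_n` -/
noncomputable def cc (d X : ℝ) (u : ℝ) : ℂ :=
  ((u⁻¹ * VV (u / X ^ 2) : ℝ) : ℂ) *
    cexp (-((u * K3 ^ (-(2 / 3) : ℝ) : ℝ) : ℂ) * ((Real.sin (2 * d / 3) : ℂ) + Real.cos (2 * d / 3) * I))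

lemma cc_hterm (H : HeckeF) (d X : ℝ) (n : ℕ) :
    hterm H d n * (VV ((n : ℝ) ^ (2 / 3 : ℝ) / X ^ 2) : ℂ) = H.a n * cc d X ((n : ℝ) ^ (2 / 3 : ℝ)) := by
  unfold hterm cc
  have h1 : ((n : ℝ) / K3) ^ (2 / 3 : ℝ) = (n : ℝ) ^ (2 / 3 : ℝ) * K3 ^ (-(2 / 3) : ℝ) := by
    rw [Real.div_rpow (by positivity) K3_pos.le, Real.rpow_neg K3_pos.le, div_eq_mul_inv]
  have h2 : (n : ℝ) ^ (-(2 / 3) : ℝ) = ((n : ℝ) ^ (2 / 3 : ℝ))⁻¹ := Real.rpow_neg (by positivity) _
  rw [h1, h2]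
  push_cast
  ring

lemma cc_ne {d X u : ℝ} (h : cc d X u ≠ 0) : VV (u / X ^ 2) ≠ 0 := by
  intro h'
  apply h
  unfold cc
  rw [h']
  simp

/-- the coefficient sum is a lattice sum -/
theorem sum_lattice (H : HeckeF) {K : ℝ} (hK : 1 < K)
    (hs : ∀ x, H.w x ≠ 0 → ∀ i j, |x i| ≤ K * |x j|) (d : ℝ) {X : ℝ} (hX : 1 ≤ X)
    (F : Finset (Fin 3 → ℤ)) (hF : ∀ y, (∀ j, |lp H.A y j| ≤ 2 * K * X) → y ∈ F) :
    ∑' n : ℕ, hterm H d n * (VV ((n : ℝ) ^ (2 / 3 : ℝ) / X ^ 2) : ℂ) =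
      (1 / 2) * ∑ y ∈ F, H.w (lp H.A y) * cc d X (phi (lp H.A y)) := by
  classical
  have hX0 : 0 < X := by linarith
  choose nn hnn using H.norm_int
  have hphi : ∀ y, phi (lp H.A y) = (nn y : ℝ) ^ (2 / 3 : ℝ) := fun y => phi_norm H y (hnn y)
  have hmem : ∀ y, H.w (lp H.A y) ≠ 0 → cc d X (phi (lp H.A y)) ≠ 0 → y ∈ F := by
    intro y hw hc
    apply hF
    have h1 := cc_ne hc
    have h2 : GG H.w (X⁻¹ • lp H.A y) ≠ 0 := by
      unfold GG
      rw [H.w_hom _ _ (inv_pos.2 hX0), phi_smul hX0]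
      refine mul_ne_zero hw ?_
      rw [Complex.ofReal_ne_zero]
      refine mul_ne_zero (inv_ne_zero ?_) h1
      intro h3
      rw [h3] at h1
      exact h1 (VV_low (by norm_num))
    have h3 := GG_support H hK hs h2
    intro j
    have h4 := (h3 j).2
    rw [Pi.smul_apply, smul_eq_mul, abs_mul, abs_of_pos (inv_pos.2 hX0), inv_mul_le_iff₀ hX0] at h4
    linarith
  -- a bound for the relevant n
  set N : ℕ := (F.sup nn) + ⌈8 * X ^ 3⌉₊ + 1 with hN
  have hNc : ∀ n : ℕ, N ≤ n → cc d X ((n : ℝ) ^ (2 / 3 : ℝ)) = 0 := by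
    intro n hn
    by_contra hne
    have h1 := (VV_range (cc_ne hne)).2
    rw [div_le_iff₀ (by positivity)] at h1
    have h2 : (8 * X ^ 3 : ℝ) < n := by
      have h3 : (8 * X ^ 3 : ℝ) ≤ ⌈8 * X ^ 3⌉₊ := Nat.le_ceil _
      have h4 : (⌈8 * X ^ 3⌉₊ : ℝ) < n := by
        exact_mod_cast (show ⌈8 * X ^ 3⌉₊ < n by omega)
      linarith
    have h3 : (8 * X ^ 3 : ℝ) ^ (2 / 3 : ℝ) < (n : ℝ) ^ (2 / 3 : ℝ) :=
      Real.rpow_lt_rpow (by positivity) h2 (by norm_num)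
    have h4 : (8 * X ^ 3 : ℝ) ^ (2 / 3 : ℝ) = 4 * X ^ 2 := by
      have h5 : (8 * X ^ 3 : ℝ) = (2 * X) ^ (3 : ℝ) := by
        rw [show (3 : ℝ) = ((3 : ℕ) : ℝ) by norm_num, Real.rpow_natCast]; ring
      rw [h5, ← Real.rpow_mul (by positivity), show (3 : ℝ) * (2 / 3) = ((2 : ℕ) : ℝ) by norm_num,
        Real.rpow_natCast]
      ring
    linarith
  have hterm0 : ∀ n, hterm H d n * (VV ((n : ℝ) ^ (2 / 3 : ℝ) / X ^ 2) : ℂ) =
      H.a n * cc d X ((n : ℝ) ^ (2 / 3 : ℝ)) := fun n => cc_hterm H d X n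
  have h1 : ∑' n : ℕ, hterm H d n * (VV ((n : ℝ) ^ (2 / 3 : ℝ) / X ^ 2) : ℂ) =
      ∑ n ∈ Finset.range N, H.a n * cc d X ((n : ℝ) ^ (2 / 3 : ℝ)) := by
    rw [tsum_congr hterm0, tsum_eq_sum]
    intro n hn
    rw [Finset.mem_range, not_lt] at hn
    rw [hNc n hn, mul_zero]
  have h2 : ∀ n : ℕ, H.a n * cc d X ((n : ℝ) ^ (2 / 3 : ℝ)) =
      (1 / 2) * ∑ y ∈ F, if nn y = n then H.w (lp H.A y) * cc d X (phi (lp H.A y)) else 0 := by
    intro n
    by_cases hc : cc d X ((n : ℝ) ^ (2 / 3 : ℝ)) = 0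
    · rw [hc, mul_zero, Finset.sum_eq_zero, mul_zero]
      intro y _
      split_ifs with h
      · rw [hphi y, h, hc, mul_zero]
      · rfl
    · have hn1 : 1 ≤ n := by
        by_contra h
        have h0 : n = 0 := by omega
        rw [h0, Nat.cast_zero, Real.zero_rpow (by norm_num)] at hc
        exact (cc_ne hc) (VV_low (by simp))
      rw [H.coeff n hn1, mul_assoc]
      congr 1
      rw [tsum_eq_sum (s := F), Finset.sum_mul]
      · refine Finset.sum_congr rfl fun y _ => ?_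
        rw [hnn y]
        by_cases h : nn y = n
        · rw [if_pos h, if_pos (by rw [h]), hphi y, h]
          rfl
        · rw [if_neg h, if_neg (by exact_mod_cast h), zero_mul]
      · intro y hy
        split_ifs with h
        · by_contra hw
          apply hy
          apply hmem y hw
          rw [hphi y]
          have : nn y = n := by
            have h3 := hnn y
            rw [h] at h3
            exact_mod_cast h3.symm
          rw [this]
          exact hc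
        · rfl
  rw [h1, Finset.sum_congr rfl fun n _ => h2 n, ← Finset.mul_sum, Finset.sum_comm]
  congr 1
  refine Finset.sum_congr rfl fun y hy => ?_
  rw [Finset.sum_ite_eq (Finset.range N) (nn y), if_pos]
  rw [Finset.mem_range]
  have : nn y ≤ F.sup nn := Finset.le_sup hy
  omega

end Pool.Agent.Helper23.BDF5
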