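import Pool.Agent.Helper23.BDF5.Lattice
import Pool.Agent.Helper23.BDF5.Fourier

/-!
MP_bd232a_nt, part F5: the bound for one dyadic piece.
-/

open Complex MeasureTheory Set Filter Topology
open scoped ContDiff ComplexConjugate

namespace Pool.Agent.Helper23.BDF5

open Pool.Agent.Helper19.BD Pool.Agent.Helper83.BDF

/-- finite exponential sum -/
noncomputable def EE (H : HeckeF) (F : Finset (Fin 3 → ℤ)) (X κ : ℝ) : ℂ :=
  ∑ y ∈ F, GG H.w (X⁻¹ • Helper83.BDF.lp H.A y) *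
    cexp (-(2 * Real.pi * I * ((κ * phi (Helper83.BDF.lp H.A y) : ℝ) : ℂ)))

lemma norm_cexp_neg (x : ℝ) : ‖cexp (-(2 * Real.pi * I * (x : ℂ)))‖ = 1 := by
  rw [show -(2 * Real.pi * I * (x : ℂ)) = ((-(2 * Real.pi * x) : ℝ) : ℂ) * I by push_cast; ring]
  exact Complex.norm_exp_ofReal_mul_I _

/-- constants for the exponential sums -/
theorem EE_bounds (H : HeckeF) (hE : LatticeE) {K : ℝ} (hK : 1 < K)
    (hs : ∀ x, H.w x ≠ 0 → ∀ i j, |x i| ≤ K * |x j|) {κ₁ κ₂ : ℝ} (hκ : 0 < κ₁) :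
    ∃ C1 C2 δ : ℝ, 0 ≤ C1 ∧ 0 ≤ C2 ∧ 0 < δ ∧ ∀ X : ℝ, 1 ≤ X → ∃ F : Finset (Fin 3 → ℤ),
      (∀ y, (∀ j, |Helper83.BDF.lp H.A y j| ≤ 2 * K * X) → y ∈ F) ∧
      (∀ κ, κ₁ ≤ κ → κ ≤ κ₂ → ‖EE H F X κ‖ ≤ C1 * X ^ (5 / 2 - δ)) ∧
      (∀ κ, ‖EE H F X κ‖ ≤ C2 * X ^ 3) := by
  obtain ⟨CF, hCF, hbox⟩ := lattice_box H.A H.hA (2 * K) (by linarith)
  obtain ⟨M, hM⟩ : ∃ M : ℝ, ∀ x, ‖GG H.w x‖ ≤ M :=
    (GG_compact H).exists_bound_of_continuous (GG_contDiff H).continuous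
  have hM0 : 0 ≤ M := (norm_nonneg _).trans (hM 0)
  set G' : (Fin 3 → ℝ) → ℂ := fun x => conj (GG H.w x) with hG'
  have c1 : ContDiff ℝ ∞ G' := Complex.conjCLE.contDiff.comp (GG_contDiff H)
  have c2 : HasCompactSupport G' := (GG_compact H).comp_left (g := fun z : ℂ => conj z) (by simp)
  have c3 : tsupport G' ⊆ {x | ∀ j, x j ≠ 0} := by
    refine (closure_mono ?_).trans (GG_tsupport H)
    intro x hx h
    apply hx
    simp only [hG']
    rw [h, map_zero]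
  obtain ⟨C1, δ, hδ, h1⟩ := hE H.A H.hA G' c1 c2 c3 κ₁ κ₂ hκ
  refine ⟨max C1 0, M * CF, δ, le_max_right _ _, by positivity, hδ, fun X hX => ?_⟩
  have hX0 : 0 < X := by linarith
  obtain ⟨F, hFc, hF⟩ := hbox X hX
  refine ⟨F, hF, ?_, ?_⟩
  · intro κ hk1 hk2
    have h2 := h1 X κ hX hk1 hk2
    have h3 : ∑' y : Fin 3 → ℤ, G' (X⁻¹ • Helper83.BDF.lp H.A y) *
        cexp (2 * Real.pi * I * ((κ * phi (Helper83.BDF.lp H.A y) : ℝ) : ℂ)) = conj (EE H F X κ) := by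
      rw [tsum_eq_sum (s := F)]
      · unfold EE
        rw [map_sum]
        refine Finset.sum_congr rfl fun y _ => ?_
        rw [map_mul, ← Complex.exp_conj]
        congr 2
        rw [map_neg, map_mul, map_mul, map_mul, Complex.conj_I, Complex.conj_ofReal,
          Complex.conj_ofReal, Complex.conj_ofNat]
        ring
      · intro y hy
        have : GG H.w (X⁻¹ • Helper83.BDF.lp H.A y) = 0 := by
          by_contra hne
          apply hy
          apply hF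
          intro j
          have h4 := ((GG_support H hK hs hne) j).2
          rw [Pi.smul_apply, smul_eq_mul, abs_mul, abs_of_pos (inv_pos.2 hX0), inv_mul_le_iff₀ hX0] at h4
          linarith
        simp only [hG']
        rw [this, map_zero, zero_mul]
    rw [h3, RCLike.norm_conj] at h2
    refine h2.trans (mul_le_mul_of_nonneg_right (le_max_left _ _) (by positivity))
  · intro κ
    unfold EE
    refine (norm_sum_le _ _).trans ?_
    calc ∑ y ∈ F, ‖GG H.w (X⁻¹ • Helper83.BDF.lp H.A y) *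
          cexp (-(2 * Real.pi * I * ((κ * phi (Helper83.BDF.lp H.A y) : ℝ) : ℂ)))‖
        ≤ ∑ y ∈ F, M := by
          refine Finset.sum_le_sum fun y _ => ?_
          rw [norm_mul, norm_cexp_neg, mul_one]
          exact hM _
      _ = F.card * M := by rw [Finset.sum_const, nsmul_eq_mul]
      _ ≤ (CF * X ^ 3) * M := by gcongr
      _ = M * CF * X ^ 3 := by ring

/-- the integral representation of one dyadic piece -/
theorem piece_integral (H : HeckeF) {K : ℝ} (hK : 1 < K)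
    (hs : ∀ x, H.w x ≠ 0 → ∀ i j, |x i| ≤ K * |x j|) (d : ℝ) {X : ℝ} (hX : 1 ≤ X)
    (F : Finset (Fin 3 → ℤ)) (hF : ∀ y, (∀ j, |Helper83.BDF.lp H.A y j| ≤ 2 * K * X) → y ∈ F)
    {gh : ℝ → ℂ} (hgi : Integrable gh)
    (hg : ∀ t : ℝ, 1 / 2 ≤ t → t ≤ 4 →
      ((Real.exp (-(K3 ^ (-(2 / 3) : ℝ) * Real.sin (2 * d / 3) * X ^ 2 * t)) : ℝ) : ℂ) =
        ∫ ξ : ℝ, cexp (2 * Real.pi * I * ((ξ * t : ℝ) : ℂ)) * gh ξ) :
    ∑' n : ℕ, hterm H d n * (VV ((n : ℝ) ^ (2 / 3 : ℝ) / X ^ 2) : ℂ) =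
      (1 / 2) * ((X ^ 2 : ℝ) : ℂ)⁻¹ *
        ∫ ξ : ℝ, gh ξ * EE H F X (K3 ^ (-(2 / 3) : ℝ) * Real.cos (2 * d / 3) / (2 * Real.pi) - ξ / X ^ 2) := by
  have hX0 : 0 < X := by linarith
  have hX0' : (X : ℂ) ≠ 0 := by exact_mod_cast hX0.ne'
  have hpi : (Real.pi : ℂ) ≠ 0 := by exact_mod_cast Real.pi_pos.ne'
  set q : ℝ := K3 ^ (-(2 / 3) : ℝ) with hq
  rw [sum_lattice H hK hs d hX F hF, mul_assoc]
  congr 1
  have hbi : ∀ (c : ℝ → ℝ), Continuous c → Integrable (fun ξ : ℝ => gh ξ *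
      cexp (-(2 * Real.pi * I * (c ξ : ℂ)))) := by
    intro c hc
    refine hgi.mul_bdd (c := 1) ?_ ?_
    · apply Continuous.aestronglyMeasurable
      fun_prop
    · exact Eventually.of_forall fun ξ => (norm_cexp_neg (c ξ)).le
  have hEE : ∀ ξ : ℝ, gh ξ * EE H F X (q * Real.cos (2 * d / 3) / (2 * Real.pi) - ξ / X ^ 2) =
      ∑ y ∈ F, GG H.w (X⁻¹ • Helper83.BDF.lp H.A y) * (gh ξ * cexp (-(2 * Real.pi * I *
        (((q * Real.cos (2 * d / 3) / (2 * Real.pi) - ξ / X ^ 2) * phi (Helper83.BDF.lp H.A y) : ℝ) : ℂ)))) := by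
    intro ξ
    unfold EE
    rw [Finset.mul_sum]
    refine Finset.sum_congr rfl fun y _ => ?_
    ring
  simp_rw [hEE]
  rw [integral_finsetSum]
  · rw [Finset.mul_sum]
    refine Finset.sum_congr rfl fun y _ => ?_
    rw [integral_const_mul]
    set x := Helper83.BDF.lp H.A y with hx
    by_cases hG : GG H.w (X⁻¹ • x) = 0
    · rw [hG, zero_mul, mul_zero]
      rw [GG_smul H hX0] at hG
      unfold cc
      rw [← mul_assoc]
      have : H.w x * (((phi x)⁻¹ * VV (phi x / X ^ 2) : ℝ) : ℂ) = 0 := by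
        rcases mul_eq_zero.1 hG with h | h
        · rw [h, zero_mul]
        · rw [Complex.ofReal_eq_zero] at h
          rcases mul_eq_zero.1 h with h | h
          · exact absurd h (by positivity)
          · rw [h]; simp
      rw [this, zero_mul]
    · have hV : VV (phi x / X ^ 2) ≠ 0 := by
        intro h
        apply hG
        rw [GG_smul H hX0, h]
        simp
      obtain ⟨ht1, ht2⟩ := VV_range hV
      have hgt := hg _ ht1 ht2
      have e1 : ∫ ξ : ℝ, gh ξ * cexp (-(2 * Real.pi * I *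
          (((q * Real.cos (2 * d / 3) / (2 * Real.pi) - ξ / X ^ 2) * phi x : ℝ) : ℂ))) =
          cexp (-((phi x * q * Real.cos (2 * d / 3) : ℝ) : ℂ) * I) *
            ((Real.exp (-(q * Real.sin (2 * d / 3) * X ^ 2 * (phi x / X ^ 2))) : ℝ) : ℂ) := by
        rw [hgt, ← integral_const_mul]
        refine integral_congr_ae (Eventually.of_forall fun ξ => ?_)
        simp only
        rw [mul_comm (gh ξ), ← mul_assoc, ← Complex.exp_add]
        congr 2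
        push_cast
        field_simp
        ring
      rw [e1, GG_smul H hX0]
      have e2 : q * Real.sin (2 * d / 3) * X ^ 2 * (phi x / X ^ 2) = phi x * q * Real.sin (2 * d / 3) := by
        field_simp
      rw [e2]
      unfold cc
      have e3 : cexp (-((phi x * q : ℝ) : ℂ) * ((Real.sin (2 * d / 3) : ℂ) + Real.cos (2 * d / 3) * I)) =
          cexp (-((phi x * q * Real.cos (2 * d / 3) : ℝ) : ℂ) * I) *
            ((Real.exp (-(phi x * q * Real.sin (2 * d / 3))) : ℝ) : ℂ) := by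
        rw [Complex.ofReal_exp, ← Complex.exp_add]
        congr 1
        push_cast
        ring
      rw [e3]
      push_cast
      field_simp
  · intro y _
    refine Integrable.const_mul (hbi _ (by fun_prop)) _

theorem piece_bound (H : HeckeF) (hE : LatticeE) : ∃ C c δ : ℝ, 0 ≤ C ∧ 0 < c ∧ 0 < δ ∧ δ ≤ 1 / 4 ∧
    ∀ d X : ℝ, 0 < d → d ≤ 1 → 1 ≤ X →
      ‖∑' n : ℕ, hterm H d n * (VV ((n : ℝ) ^ (2 / 3 : ℝ) / X ^ 2) : ℂ)‖ ≤
        C * X ^ (1 / 2 - δ) / (1 + c * d * X ^ 2) := by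
  obtain ⟨K, hK, hs⟩ := H.w_supp
  set q : ℝ := K3 ^ (-(2 / 3) : ℝ) with hq
  have hq0 : 0 < q := Real.rpow_pos_of_pos K3_pos _
  set c0 : ℝ := q / (2 * Real.pi) with hc0
  have hc00 : 0 < c0 := by positivity
  obtain ⟨C1, C2, δ1, hC1, hC2, hδ1, hEE⟩ := EE_bounds H hE hK hs (κ₁ := c0 / 4) (κ₂ := 2 * c0) (by positivity)
  obtain ⟨Cf, hCf, hwin⟩ := fourier_window
  set I2 : ℝ := ∫ ξ : ℝ, (1 + ‖ξ‖) ^ (-2 : ℝ) with hI2
  set I3 : ℝ := ∫ ξ : ℝ, (1 + ‖ξ‖) ^ (-(3 / 2) : ℝ) with hI3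
  have i2 : Integrable (fun ξ : ℝ => (1 + ‖ξ‖) ^ (-2 : ℝ)) := integrable_one_add_norm (by simp)
  have i3 : Integrable (fun ξ : ℝ => (1 + ‖ξ‖) ^ (-(3 / 2) : ℝ)) :=
    integrable_one_add_norm (by simp; norm_num)
  have hI20 : 0 ≤ I2 := integral_nonneg fun ξ => by positivity
  have hI30 : 0 ≤ I3 := integral_nonneg fun ξ => by positivity
  set δ : ℝ := min δ1 (1 / 4) with hδ
  have hδ0 : 0 < δ := lt_min hδ1 (by norm_num)
  set s4 : ℝ := (4 / c0) ^ (1 / 2 : ℝ) with hs4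
  have hs40 : 0 < s4 := by positivity
  set CC : ℝ := Cf * (C1 * I2 + C2 * s4 * I3) with hCC
  have hCC0 : 0 ≤ CC := by positivity
  refine ⟨CC, q * (4 / (3 * Real.pi)), δ, hCC0, by positivity, hδ0, min_le_right _ _,
    fun d X hd hd1 hX => ?_⟩
  have hX0 : 0 < X := by linarith
  have hpi := Real.pi_pos
  have hpi3 := Real.pi_gt_three
  -- sine and cosine
  have hsin : 4 / (3 * Real.pi) * d ≤ Real.sin (2 * d / 3) := by
    have h1 := Real.mul_le_sin (x := 2 * d / 3) (by positivity) (by linarith)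
    calc 4 / (3 * Real.pi) * d = 2 / Real.pi * (2 * d / 3) := by field_simp; ring
      _ ≤ _ := h1
  have hsin0 : 0 ≤ Real.sin (2 * d / 3) := le_trans (by positivity) hsin
  have hcos : 1 / 2 ≤ Real.cos (2 * d / 3) := by
    have h1 := Real.one_sub_sq_div_two_le_cos (x := 2 * d / 3)
    nlinarith
  have hcos1 : Real.cos (2 * d / 3) ≤ 1 := Real.cos_le_one _
  set μ : ℝ := q * Real.sin (2 * d / 3) * X ^ 2 with hμ
  have hμ0 : 0 ≤ μ := by positivity
  obtain ⟨gh, hgc, hgb, hg⟩ := hwin μ hμ0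
  obtain ⟨F, hF, hE1, hE2⟩ := hEE X hX
  have hgi : Integrable gh := Integrable.mono' (i2.const_mul (Cf / (1 + μ))) hgc.aestronglyMeasurable
    (Eventually.of_forall hgb)
  rw [piece_integral H hK hs d hX F hF hgi hg]
  set κ0 : ℝ := q * Real.cos (2 * d / 3) / (2 * Real.pi) with hκ0
  have hκ0a : c0 / 2 ≤ κ0 := by
    have : κ0 = c0 * Real.cos (2 * d / 3) := by rw [hκ0, hc0]; ring
    rw [this]; nlinarith
  have hκ0b : κ0 ≤ c0 := by
    have : κ0 = c0 * Real.cos (2 * d / 3) := by rw [hκ0, hc0]; ring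
    rw [this]; nlinarith
  -- pointwise bound for the exponential sum
  have hpt : ∀ ξ : ℝ, ‖EE H F X (κ0 - ξ / X ^ 2)‖ ≤
      C1 * X ^ (5 / 2 - δ) + C2 * s4 * X ^ (5 / 2 - δ) * (1 + ‖ξ‖) ^ (1 / 2 : ℝ) := by
    intro ξ
    have hmono : X ^ (5 / 2 - δ1) ≤ X ^ (5 / 2 - δ) :=
      Real.rpow_le_rpow_of_exponent_le hX (by linarith [min_le_left δ1 (1 / 4 : ℝ)])
    by_cases hξ : |ξ| ≤ c0 / 4 * X ^ 2
    · have h1 : |ξ / X ^ 2| ≤ c0 / 4 := by
        rw [abs_div, abs_of_pos (by positivity : (0:ℝ) < X ^ 2), div_le_iff₀ (by positivity)]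
        exact hξ
      rw [abs_le] at h1
      have h2 := hE1 (κ0 - ξ / X ^ 2) (by linarith) (by linarith)
      have h3 : 0 ≤ C2 * s4 * X ^ (5 / 2 - δ) * (1 + ‖ξ‖) ^ (1 / 2 : ℝ) := by positivity
      have h4 := mul_le_mul_of_nonneg_left hmono hC1
      linarith
    · push Not at hξ
      have h2 := hE2 (κ0 - ξ / X ^ 2)
      have h3 : X ≤ s4 * (1 + ‖ξ‖) ^ (1 / 2 : ℝ) := by
        rw [hs4, ← Real.mul_rpow (by positivity) (by positivity), ← Real.sqrt_eq_rpow]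
        apply Real.le_sqrt_of_sq_le
        rw [Real.norm_eq_abs, div_mul_eq_mul_div, le_div_iff₀ hc00]
        nlinarith
      have h4 : X ^ 3 ≤ s4 * X ^ (5 / 2 - δ) * (1 + ‖ξ‖) ^ (1 / 2 : ℝ) := by
        have h5 : X ^ 2 ≤ X ^ (5 / 2 - δ) := by
          rw [← Real.rpow_natCast]
          exact Real.rpow_le_rpow_of_exponent_le hX (by
            have := min_le_right δ1 (1 / 4 : ℝ)
            push_cast
            linarith)
        calc X ^ 3 = X ^ 2 * X := by ring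
          _ ≤ X ^ (5 / 2 - δ) * (s4 * (1 + ‖ξ‖) ^ (1 / 2 : ℝ)) := by gcongr
          _ = _ := by ring
      have h6 := mul_le_mul_of_nonneg_left h4 hC2
      have h7 : 0 ≤ C1 * X ^ (5 / 2 - δ) := by positivity
      calc ‖EE H F X (κ0 - ξ / X ^ 2)‖ ≤ C2 * X ^ 3 := h2
        _ ≤ C2 * (s4 * X ^ (5 / 2 - δ) * (1 + ‖ξ‖) ^ (1 / 2 : ℝ)) := h6
        _ ≤ _ := by linarith
  -- bound for the integral
  have hint : ‖∫ ξ : ℝ, gh ξ * EE H F X (κ0 - ξ / X ^ 2)‖ ≤ CC * X ^ (5 / 2 - δ) / (1 + μ) := by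
    have hb : ∀ ξ : ℝ, ‖gh ξ * EE H F X (κ0 - ξ / X ^ 2)‖ ≤
        Cf / (1 + μ) * (C1 * X ^ (5 / 2 - δ)) * (1 + ‖ξ‖) ^ (-2 : ℝ) +
        Cf / (1 + μ) * (C2 * s4 * X ^ (5 / 2 - δ)) * (1 + ‖ξ‖) ^ (-(3 / 2) : ℝ) := by
      intro ξ
      rw [norm_mul]
      have h1 := mul_le_mul (hgb ξ) (hpt ξ) (norm_nonneg _) (by positivity)
      refine h1.trans (le_of_eq ?_)
      have h2 : (1 + ‖ξ‖) ^ (-(3 / 2) : ℝ) = (1 + ‖ξ‖) ^ (-2 : ℝ) * (1 + ‖ξ‖) ^ (1 / 2 : ℝ) := by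
        rw [← Real.rpow_add (by positivity)]
        norm_num
      rw [h2]
      ring
    have hii : Integrable (fun ξ : ℝ => Cf / (1 + μ) * (C1 * X ^ (5 / 2 - δ)) * (1 + ‖ξ‖) ^ (-2 : ℝ) +
        Cf / (1 + μ) * (C2 * s4 * X ^ (5 / 2 - δ)) * (1 + ‖ξ‖) ^ (-(3 / 2) : ℝ)) :=
      (i2.const_mul _).add (i3.const_mul _)
    refine (norm_integral_le_of_norm_le hii (Eventually.of_forall hb)).trans (le_of_eq ?_)
    rw [integral_add (i2.const_mul _) (i3.const_mul _), integral_const_mul, integral_const_mul]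
    rw [hCC]
    ring
  rw [norm_mul, norm_mul, norm_inv, Complex.norm_real, Real.norm_of_nonneg (by positivity)]
  have h12 : ‖(1 / 2 : ℂ)‖ = 1 / 2 := by simp
  rw [h12]
  have hcd : 1 + q * (4 / (3 * Real.pi)) * d * X ^ 2 ≤ 1 + μ := by
    have : q * (4 / (3 * Real.pi)) * d * X ^ 2 ≤ μ := by
      rw [hμ]
      calc q * (4 / (3 * Real.pi)) * d * X ^ 2 = q * (4 / (3 * Real.pi) * d) * X ^ 2 := by ring
        _ ≤ _ := by gcongr
    linarith
  have hexp : X ^ (5 / 2 - δ) = X ^ 2 * X ^ (1 / 2 - δ) := by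
    rw [← Real.rpow_natCast, ← Real.rpow_add hX0]
    congr 1
    push_cast
    ring
  calc 1 / 2 * (X ^ 2)⁻¹ * ‖∫ ξ : ℝ, gh ξ * EE H F X (κ0 - ξ / X ^ 2)‖
      ≤ 1 * (X ^ 2)⁻¹ * (CC * X ^ (5 / 2 - δ) / (1 + μ)) := by gcongr; norm_num
    _ = CC * X ^ (1 / 2 - δ) / (1 + μ) := by
        rw [hexp]
        field_simp
    _ ≤ _ := by gcongr

end Pool.Agent.Helper23.BDF5
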